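import Pool.Agent.SCT.StmtsP

/-!
# Squad SCT, row GTD: the dimension of the generic point
-/

set_option autoImplicit false

namespace Pool.Agent.SCT.H88

open Pool.Agent.SCT MvPolynomial Cardinal

theorem gtd_trdeg_ft (k : Type) [Field k] (n : ℕ) :
    Algebra.trdeg k (FT k n) = ((n + 2 : ℕ) : Cardinal) := by
  have h := trdeg_add_eq k (MvPolynomial (Fin (n + 2)) k) (A := FT k n)
  have h0 : Algebra.trdeg (MvPolynomial (Fin (n + 2)) k) (FT k n) = 0 :=
    trdeg_eq_zero_iff.mpr (IsLocalization.isAlgebraic _ (nonZeroDivisors _))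
  rw [← h, MvPolynomial.trdeg_of_isDomain, h0, add_zero]
  simp

theorem gtd : GtdStmt := by
  intro k _ n d hdim
  obtain ⟨CC, hCC⟩ : ∃ CC : IntermediateField k (FT k n), CC = rat k (gen k n) := ⟨_, rfl⟩
  obtain ⟨s, hs⟩ : ∃ s : Set (FT k n), s = {gen k n 0} := ⟨_, rfl⟩
  obtain ⟨A0, hA0⟩ : ∃ A0 : Subalgebra CC (FT k n), A0 = Algebra.adjoin CC s := ⟨_, rfl⟩
  have h00 : gen k n 0 ≠ 0 := by
    have h := aeval_gen_ne (k := k) (n := n) (f := X 0) (X_ne_zero 0)
    rwa [aeval_X] at h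
  have hCA : ∀ z ∈ CC, z ∈ A0 := fun z hz => A0.algebraMap_mem (⟨z, hz⟩ : CC)
  have h0A : gen k n 0 ∈ A0 := by
    rw [hA0, hs]
    exact Algebra.subset_adjoin rfl
  have hg : ∀ l, gen k n l ∈ A0 := by
    intro l
    have h1 : gen k n l = (gen k n l / gen k n 0) * gen k n 0 := by
      field_simp
    rw [h1]
    refine A0.mul_mem (hCA _ ?_) h0A
    rw [hCC]
    exact IntermediateField.subset_adjoin _ _ ⟨l, 0, rfl⟩
  have hp : ∀ p : MvPolynomial (Fin (n + 2)) k,
      algebraMap (MvPolynomial (Fin (n + 2)) k) (FT k n) p ∈ A0 := by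
    intro p
    rw [← aeval_gen]
    induction p using MvPolynomial.induction_on with
    | C c =>
      rw [aeval_C]
      exact hCA _ (CC.algebraMap_mem c)
    | add p q hp hq =>
      rw [map_add]
      exact A0.add_mem hp hq
    | mul_X p l hp =>
      rw [map_mul, aeval_X]
      exact A0.mul_mem hp (hg l)
  have halg : Algebra.IsAlgebraic A0 (FT k n) := by
    refine ⟨fun z => ?_⟩
    obtain ⟨p, q, _, rfl⟩ := IsFractionRing.div_surjective (A := MvPolynomial (Fin (n + 2)) k) z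
    have h1 : IsAlgebraic A0 (algebraMap (MvPolynomial (Fin (n + 2)) k) (FT k n) p) :=
      isAlgebraic_algebraMap (⟨_, hp p⟩ : A0)
    have h2 : IsAlgebraic A0 (algebraMap (MvPolynomial (Fin (n + 2)) k) (FT k n) q) :=
      isAlgebraic_algebraMap (⟨_, hp q⟩ : A0)
    rw [div_eq_mul_inv]
    exact h1.mul h2.inv
  have hle : Algebra.trdeg CC (FT k n) ≤ ((1 : ℕ) : Cardinal) := by
    rw [hA0] at halg
    have h1 := Algebra.IsAlgebraic.trdeg_le_cardinalMk CC s
    refine h1.trans ?_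
    rw [hs, Cardinal.mk_singleton, Nat.cast_one]
  have i1 : FaithfulSMul k CC :=
    (faithfulSMul_iff_algebraMap_injective k CC).mpr (algebraMap k CC).injective
  have i2 : FaithfulSMul CC (FT k n) :=
    (faithfulSMul_iff_algebraMap_injective CC (FT k n)).mpr (algebraMap CC (FT k n)).injective
  have h1 := trdeg_add_eq k CC (A := FT k n)
  rw [gtd_trdeg_ft] at h1
  have hdim' : Algebra.trdeg k CC ≤ ((d : ℕ) : Cardinal) := by
    rw [hCC]
    exact hdim
  have h2 : ((n + 2 : ℕ) : Cardinal) ≤ ((d + 1 : ℕ) : Cardinal) := by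
    rw [← h1, Nat.cast_add]
    exact add_le_add hdim' hle
  have h3 : n + 2 ≤ d + 1 := by exact_mod_cast h2
  omega

end Pool.Agent.SCT.H88
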