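import Pool.Agent.SCT.StmtsC

set_option autoImplicit false

namespace Pool.Agent.SCT.H88

open MvPolynomial Pool.Agent.SCT

section gen

variable {A B k Ω ι : Type} [CommRing A] [CommRing B] [Field k] [Field Ω] [Algebra k Ω]

theorem ev2 (κ : A →+* B) (φ : B →+* Ω) (ψ : A →+* k)
    (h : φ.comp κ = (algebraMap k Ω).comp ψ) (y : ι → B) (g : MvPolynomial ι A) :
    φ (eval₂ κ y g) = aeval (fun i => φ (y i)) (map ψ g) := by
  rw [hom_eval₂, h, aeval_def, eval₂_map]

/-- the differential over a ring -/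
noncomputable def dW [Fintype ι] (κ : A →+* B) (f : MvPolynomial ι A) (y z : ι → B) : B :=
  ∑ i, z i * eval₂ κ y (pderiv i f)

theorem dW_map [Fintype ι] (κ : A →+* B) (φ : B →+* Ω) (ψ : A →+* k)
    (h : φ.comp κ = (algebraMap k Ω).comp ψ) (f : MvPolynomial ι A) (y z : ι → B) :
    φ (dW κ f y z) = dd (map ψ f) (fun i => φ (y i)) (fun i => φ (z i)) := by
  unfold dW dd
  rw [map_sum]
  refine Finset.sum_congr rfl fun i _ => ?_
  rw [map_mul, ev2 κ φ ψ h, pderiv_map]

theorem dd_alg {Ω' : Type} [Field Ω'] [Algebra k Ω'] [Fintype ι] (e : Ω →ₐ[k] Ω')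
    (f : MvPolynomial ι k) (a b : ι → Ω) :
    e (dd f a b) = dd f (fun i => e (a i)) (fun i => e (b i)) := by
  unfold dd
  rw [map_sum]
  refine Finset.sum_congr rfl fun i _ => ?_
  rw [map_mul, comp_aeval_apply]

end gen

/-- two elements with given sum and product are images of elements of the algebraically closed
subfield -/
theorem lift_roots {C Ω' : Type} [Field C] [IsAlgClosed C] [Field Ω'] [Algebra C Ω'] (s p : C)
    (U V : Ω') (h1 : U + V = algebraMap C Ω' s) (h2 : U * V = algebraMap C Ω' p) :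
    ∃ u v : C, algebraMap C Ω' u = U ∧ algebraMap C Ω' v = V ∧ u + v = s ∧ u * v = p := by
  obtain ⟨u, hu⟩ : ∃ u : C, u * u - s * u + p = 0 := by
    have hdeg : (Polynomial.X ^ 2 + (Polynomial.C (-s) * Polynomial.X + Polynomial.C p) :
        Polynomial C).degree ≠ 0 := by
      have h3 : (Polynomial.X ^ 2 + (Polynomial.C (-s) * Polynomial.X + Polynomial.C p) :
          Polynomial C).degree = 2 := by
        have h4 : (Polynomial.C (-s) * Polynomial.X + Polynomial.C p : Polynomial C).degree <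
            (Polynomial.X ^ 2 : Polynomial C).degree := by
          rw [Polynomial.degree_X_pow]
          exact lt_of_le_of_lt Polynomial.degree_linear_le (by norm_num)
        rw [Polynomial.degree_add_eq_left_of_degree_lt h4, Polynomial.degree_X_pow]
        rfl
      rw [h3]
      norm_num
    obtain ⟨u, hu⟩ := IsAlgClosed.exists_root _ hdeg
    refine ⟨u, ?_⟩
    rw [Polynomial.IsRoot.def] at hu
    simp only [Polynomial.eval_add, Polynomial.eval_pow, Polynomial.eval_X, Polynomial.eval_mul,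
      Polynomial.eval_C] at hu
    rw [← hu]
    ring
  have hp : u * (s - u) = p := by linear_combination -hu
  have key : (U - algebraMap C Ω' u) * (U - algebraMap C Ω' (s - u)) = 0 := by
    have h5 : algebraMap C Ω' p = algebraMap C Ω' u * algebraMap C Ω' (s - u) := by
      rw [← map_mul, hp]
    have h6 : algebraMap C Ω' s = algebraMap C Ω' u + algebraMap C Ω' (s - u) := by
      rw [← map_add]
      congr 1
      ring
    rw [h6] at h1
    rw [h5] at h2
    linear_combination U * h1 - h2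
  rcases mul_eq_zero.mp key with h | h
  · have hU : algebraMap C Ω' u = U := (sub_eq_zero.mp h).symm
    refine ⟨u, s - u, hU, ?_, by ring, hp⟩
    rw [map_sub, ← h1, hU]
    ring
  · have hU : algebraMap C Ω' (s - u) = U := (sub_eq_zero.mp h).symm
    refine ⟨s - u, u, hU, ?_, by ring, by rw [mul_comm]; exact hp⟩
    have h7 : algebraMap C Ω' u = algebraMap C Ω' s - algebraMap C Ω' (s - u) := by
      rw [← map_sub]
      congr 1
      ring
    rw [h7, ← h1, hU]
    ring

/-- SPC -/
theorem spc (hANI : AniStmt) (_hEXP : ExpStmt) (hP2 : P2Stmt) (hVAL : ValStmt) (hSPP : SppStmt)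
    (hSCL : SclStmt) : SpcStmt := by
  intro E F' _ _ _ V π n a b f x u v hπ hu hab hf hns hsec huv
  classical
  obtain ⟨W, Ω', iF, iA, ρ, hρ, hpoly, hlast⟩ := hVAL E F' V π n hπ hu
  let _ : Algebra F' Ω' := ((algebraMap (Cl F' n) Ω').comp (algebraMap F' (Cl F' n))).toAlgebra
  have hF'Ω : algebraMap F' Ω' = (algebraMap (Cl F' n) Ω').comp (algebraMap F' (Cl F' n)) := rfl
  have hTow : IsScalarTower F' (Cl F' n) Ω' := IsScalarTower.of_algebraMap_eq (fun _ => rfl)
  -- the embeddings
  let eE : FT E n →ₐ[E] Cl E n := IsScalarTower.toAlgHom E (FT E n) (Cl E n)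
  have heE : ∀ y, eE y = algebraMap (FT E n) (Cl E n) y := fun _ => rfl
  let eF : FT F' n →ₐ[F'] Cl F' n := IsScalarTower.toAlgHom F' (FT F' n) (Cl F' n)
  have heF : ∀ y, eF y = algebraMap (FT F' n) (Cl F' n) y := fun _ => rfl
  let jC : Cl F' n →ₐ[F'] Ω' := IsScalarTower.toAlgHom F' (Cl F' n) Ω'
  have hjC : ∀ y, jC y = algebraMap (Cl F' n) Ω' y := fun _ => rfl
  let jF : FT F' n →ₐ[F'] Ω' := jC.comp eF
  have hjF : ∀ y, jF y = algebraMap (Cl F' n) Ω' (algebraMap (FT F' n) (Cl F' n) y) := fun _ => rfl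
  have hjFinj : Function.Injective jF := jF.toRingHom.injective
  have hWinj : Function.Injective (W.subtype : W →+* Cl E n) := Subtype.val_injective
  -- scale
  obtain ⟨k1, hk1⟩ := Function.ne_iff.1 hsec.ne
  have hmax : ∃ k0, x k0 ≠ 0 ∧ ∀ k, (eE (x k0))⁻¹ * eE (x k) ∈ W := by
    obtain ⟨k0, _, hmax⟩ := Finset.univ.exists_max_image (fun k => W.valuation (eE (x k)))
      ⟨k1, Finset.mem_univ _⟩
    have hne : eE (x k0) ≠ 0 := by
      intro h
      have h1 := hmax k1 (Finset.mem_univ _)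
      rw [h, map_zero] at h1
      have h2 : eE (x k1) = 0 := (Valuation.zero_iff _).1 (le_antisymm h1 zero_le)
      exact hk1 ((map_eq_zero_iff eE eE.toRingHom.injective).1 h2)
    refine ⟨k0, fun h => hne (by rw [h, map_zero]), ?_⟩
    intro k
    obtain ⟨c, hc⟩ := (W.valuation_le_iff _ _).1 (hmax k (Finset.mem_univ _))
    rw [← hc]
    have : (eE (x k0))⁻¹ * ((c : Cl E n) * eE (x k0)) = c := by field_simp
    rw [this]
    exact c.2
  obtain ⟨k0, hk0, hmem⟩ := hmax
  have hf3 : (map V.subtype f).IsHomogeneous 3 := hf.map _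
  have hsec1 := hSCL E n a b (map V.subtype f) x u v (x k0)⁻¹ hf3 (inv_ne_zero hk0) hsec
  set x1 : Fin (n + 2) → FT E n := fun i => (x k0)⁻¹ * x i with hx1
  set u1 : Cl E n := u / algebraMap (FT E n) (Cl E n) (x k0)⁻¹ with hu1
  set v1 : Cl E n := v / algebraMap (FT E n) (Cl E n) (x k0)⁻¹ with hv1
  have huv1 : u1 ≠ v1 := by
    intro h
    apply huv
    have h1 : algebraMap (FT E n) (Cl E n) (x k0)⁻¹ ≠ 0 := by
      rw [Ne, map_eq_zero_iff _ (algebraMap (FT E n) (Cl E n)).injective]
      exact inv_ne_zero hk0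
    rw [hu1, hv1, div_left_inj' h1] at h
    exact h
  have hmem1 : ∀ i, eE (x1 i) ∈ W := by
    intro i
    rw [hx1]
    simp only
    rw [map_mul, map_inv₀]
    exact hmem i
  have hx1k : x1 k0 = 1 := inv_mul_cancel₀ hk0
  let Xw : Fin (n + 2) → W := fun i => ⟨eE (x1 i), hmem1 i⟩
  have hXw : ∀ i, W.subtype (Xw i) = eE (x1 i) := fun _ => rfl
  have hx'ex : ∀ i, ∃ y' : FT F' n, ρ (Xw i) = jF y' := fun i => hlast (Xw i) (x1 i) rfl
  choose x' hx' using hx'ex
  have hx'k : x' k0 = 1 := by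
    apply hjFinj
    rw [← hx', map_one]
    have h1 : Xw k0 = 1 := by
      apply hWinj
      rw [hXw, hx1k, map_one, map_one]
    rw [h1, map_one]
  have hx'0 : x' ≠ 0 := by
    intro h
    rw [h] at hx'k
    exact zero_ne_one hx'k
  -- the generic point
  have hTex : ∀ i, ∃ z : W, W.subtype z = eE (gen E n i) ∧ ρ z = jF (gen F' n i) := by
    intro i
    obtain ⟨z, hz1, hz2⟩ := hpoly (X i)
    rw [map_X] at hz1 hz2
    exact ⟨z, hz1, hz2⟩
  choose Tw hTw1 hTw2 using hTex
  -- the inclusion of V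
  have hκmem : ∀ c : V, algebraMap E (Cl E n) c ∈ W ∧ True := by
    intro c
    obtain ⟨z, hz1, _⟩ := hpoly (C c)
    rw [map_C] at hz1
    refine ⟨?_, trivial⟩
    have h1 : algebraMap E (Cl E n) c = (z : Cl E n) := by
      rw [hz1]
      have h2 : (algebraMap (MvPolynomial (Fin (n + 2)) E) (FT E n)) (C (V.subtype c)) =
          algebraMap E (FT E n) (c : E) := rfl
      rw [h2, ← IsScalarTower.algebraMap_apply]
    rw [h1]
    exact z.2
  let κ : V →+* W := ((algebraMap E (Cl E n)).comp V.subtype).codRestrict W.toSubring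
    (fun c => (hκmem c).1)
  have hκ1 : W.subtype.comp κ = (algebraMap E (Cl E n)).comp V.subtype := rfl
  have hκ2 : ρ.comp κ = (algebraMap F' Ω').comp π := by
    ext c
    obtain ⟨z, hz1, hz2⟩ := hpoly (C c)
    rw [map_C] at hz1 hz2
    have h1 : κ c = z := by
      apply hWinj
      change algebraMap E (Cl E n) (c : E) = (z : Cl E n)
      rw [hz1]
      have h2 : (algebraMap (MvPolynomial (Fin (n + 2)) E) (FT E n)) (C (V.subtype c)) =
          algebraMap E (FT E n) (c : E) := rfl
      rw [h2, ← IsScalarTower.algebraMap_apply]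
    rw [RingHom.comp_apply, RingHom.comp_apply, h1, hz2]
    have h2 : (algebraMap (MvPolynomial (Fin (n + 2)) F') (FT F' n)) (C (π c)) =
        algebraMap F' (FT F' n) (π c) := rfl
    rw [h2, ← IsScalarTower.algebraMap_apply F' (FT F' n) (Cl F' n), hF'Ω, RingHom.comp_apply]
  have hκex : ∀ c : V, ∃ w : W, (w : Cl E n) = algebraMap E (Cl E n) c ∧
      ρ w = algebraMap F' Ω' (π c) := fun c => ⟨κ c, rfl, congrFun (congrArg DFunLike.coe hκ2) c⟩
  -- the point x' is on the cubic
  have hfx' : aeval x' (map π f) = 0 := by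
    apply hjFinj
    rw [map_zero, comp_aeval_apply]
    have h1 := ev2 κ ρ π hκ2 Xw f
    have h2 : (fun i => ρ (Xw i)) = fun i => jF (x' i) := funext hx'
    rw [h2] at h1
    rw [← h1]
    have h3 : eval₂ κ Xw f = 0 := by
      apply hWinj
      rw [ev2 κ W.subtype V.subtype hκ1 Xw f, map_zero]
      have h4 : (fun i => W.subtype (Xw i)) = fun i => eE (x1 i) := funext hXw
      rw [h4, ← comp_aeval_apply, hsec1.zero, map_zero]
    rw [h3, map_zero]
  have hf3' : (map π f).IsHomogeneous 3 := hf.map _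
  have hani := hANI F' n (map π f) hf3' hns x' hx'0 hfx'
  -- the coefficients
  have hXe : (fun i => W.subtype (Xw i)) = fun i => eE (x1 i) := funext hXw
  have hTe : (fun i => W.subtype (Tw i)) = fun i => eE (gen E n i) := funext hTw1
  have hXr : (fun i => ρ (Xw i)) = fun i => jF (x' i) := funext hx'
  have hTr : (fun i => ρ (Tw i)) = fun i => jF (gen F' n i) := funext hTw2
  have hA2c : W.subtype (dW κ f Xw Tw) = eE (dd (map V.subtype f) x1 (gen E n)) := by
    rw [dW_map κ W.subtype V.subtype hκ1, hXe, hTe, dd_alg]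
  have hA1c : W.subtype (dW κ f Tw Xw) = eE (dd (map V.subtype f) (gen E n) x1) := by
    rw [dW_map κ W.subtype V.subtype hκ1, hXe, hTe, dd_alg]
  have hA0c : W.subtype (eval₂ κ Tw f) = eE (aeval (gen E n) (map V.subtype f)) := by
    rw [ev2 κ W.subtype V.subtype hκ1, hTe, comp_aeval_apply]
  have hA2r : ρ (dW κ f Xw Tw) = jF (dd (map π f) x' (gen F' n)) := by
    rw [dW_map κ ρ π hκ2, hXr, hTr, dd_alg]
  have hA1r : ρ (dW κ f Tw Xw) = jF (dd (map π f) (gen F' n) x') := by
    rw [dW_map κ ρ π hκ2, hXr, hTr, dd_alg]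
  have hA0r : ρ (eval₂ κ Tw f) = jF (aeval (gen F' n) (map π f)) := by
    rw [ev2 κ ρ π hκ2, hTr, comp_aeval_apply]
  have hA2u : IsUnit (dW κ f Xw Tw) := by
    apply hρ
    rw [hA2r]
    intro h
    exact hani (hjFinj (by rw [h, map_zero]))
  obtain ⟨B, hB⟩ := hA2u.exists_left_inv
  -- u1, v1 in W
  have hsum : W.subtype (dW κ f Tw Xw) = -W.subtype (dW κ f Xw Tw) * (u1 + v1) := by
    rw [hA1c, hA2c]
    exact hsec1.sum
  have hprod : W.subtype (eval₂ κ Tw f) = W.subtype (dW κ f Xw Tw) * (u1 * v1) := by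
    rw [hA0c, hA2c]
    exact hsec1.prod
  have hBc : W.subtype B * W.subtype (dW κ f Xw Tw) = 1 := by
    rw [← map_mul, hB, map_one]
  have hs1 : u1 + v1 = W.subtype (-(B * dW κ f Tw Xw)) := by
    rw [map_neg, map_mul, hsum]
    linear_combination (-(u1 + v1)) * hBc
  have hp1 : u1 * v1 = W.subtype (B * eval₂ κ Tw f) := by
    rw [map_mul, hprod]
    linear_combination (-(u1 * v1)) * hBc
  have hint : ∀ z z' : Cl E n, z + z' = W.subtype (-(B * dW κ f Tw Xw)) →
      z * z' = W.subtype (B * eval₂ κ Tw f) → ∃ w : W, W.subtype w = z := by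
    intro z z' h1 h2
    have hI : IsIntegral W z := by
      refine ⟨Polynomial.X ^ 2 + (Polynomial.C (B * dW κ f Tw Xw) * Polynomial.X +
        Polynomial.C (B * eval₂ κ Tw f)), ?_, ?_⟩
      · apply Polynomial.monic_X_pow_add
        exact lt_of_le_of_lt Polynomial.degree_linear_le (by norm_num)
      · simp only [Polynomial.eval₂_add, Polynomial.eval₂_pow, Polynomial.eval₂_X,
          Polynomial.eval₂_mul, Polynomial.eval₂_C]
        have h3 : algebraMap W (Cl E n) (B * dW κ f Tw Xw) = -(z + z') := by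
          rw [h1, map_neg, neg_neg]
          rfl
        have h4 : algebraMap W (Cl E n) (B * eval₂ κ Tw f) = z * z' := by
          rw [h2]
          rfl
        rw [h3, h4]
        ring
    obtain ⟨w, hw⟩ := (IsIntegrallyClosed.isIntegral_iff (K := Cl E n)).1 hI
    exact ⟨w, hw⟩
  obtain ⟨Uw, hUw⟩ := hint u1 v1 hs1 hp1
  obtain ⟨Vw, hVw⟩ := hint v1 u1 (by rw [add_comm]; exact hs1) (by rw [mul_comm]; exact hp1)
  have hsumW : dW κ f Tw Xw = -dW κ f Xw Tw * (Uw + Vw) := by
    apply hWinj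
    rw [map_mul, map_neg, map_add, hUw, hVw]
    exact hsum
  have hprodW : eval₂ κ Tw f = dW κ f Xw Tw * (Uw * Vw) := by
    apply hWinj
    rw [map_mul, map_mul, hUw, hVw]
    exact hprod
  have hjani : jF (dd (map π f) x' (gen F' n)) ≠ 0 := fun h => hani (hjFinj (by rw [h, map_zero]))
  -- u', v'
  set a2 := dd (map π f) x' (gen F' n) with ha2
  set a1 := dd (map π f) (gen F' n) x' with ha1
  set a0 := aeval (gen F' n) (map π f) with ha0
  have hr1 : ρ Uw + ρ Vw = algebraMap (Cl F' n) Ω' (eF (-a1 / a2)) := by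
    have h1 := congrArg ρ hsumW
    rw [map_mul, map_neg, map_add, hA1r, hA2r] at h1
    change _ = jF (-a1 / a2)
    rw [map_div₀, map_neg, h1]
    field_simp
  have hr2 : ρ Uw * ρ Vw = algebraMap (Cl F' n) Ω' (eF (a0 / a2)) := by
    have h1 := congrArg ρ hprodW
    rw [map_mul, map_mul, hA0r, hA2r] at h1
    change _ = jF (a0 / a2)
    rw [map_div₀, h1]
    field_simp
  obtain ⟨u', v', hu', hv', hs', hp'⟩ := lift_roots _ _ _ _ hr1 hr2
  have hea2 : eF a2 ≠ 0 := by
    rw [Ne, map_eq_zero_iff eF eF.toRingHom.injective]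
    exact hani
  -- reductions of points
  have hdim : ∀ (Uw' : W) (z : Cl E n) (z' : Cl F' n) (d : ℕ), W.subtype Uw' = z →
      algebraMap (Cl F' n) Ω' z' = ρ Uw' → DimLe E (pt E n x1 z) d → DimLe F' (pt F' n x' z') d := by
    intro Uw' z z' d h1 h2 h3
    have h4 : (fun i => ((Tw i + Uw' * Xw i : W) : Cl E n)) = pt E n x1 z := by
      funext i
      change W.subtype (Tw i + Uw' * Xw i) = _
      rw [map_add, map_mul, hTw1, hXw, h1]
      rfl
    have h5 : (fun i => ρ (Tw i + Uw' * Xw i)) = fun i => jC (pt F' n x' z' i) := by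
      funext i
      unfold pt
      rw [map_add, map_mul, hTw2, hx', map_add, map_mul, hjC z', h2]
      rfl
    have h6 := (hSPP E F' (Cl E n) Ω' V π W ρ (Fin (n + 2)) (fun i => Tw i + Uw' * Xw i)
      (fun i => Tw i + Uw' * Xw i) d hπ hu hρ hκex).1
    rw [h4, h5] at h6
    exact (dimLe_map jC _ d).1 (h6 h3)
  refine ⟨x', u', v', ⟨hx'0, hfx', ?_, ?_, ?_, ?_⟩, ?_⟩
  · change eF a1 = -eF a2 * (u' + v')
    rw [hs', map_div₀, map_neg]
    field_simp
  · change eF a0 = eF a2 * (u' * v')
    rw [hp', map_div₀]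
    field_simp
  · exact hdim Uw u1 u' a hUw hu' hsec1.dimu
  · exact hdim Vw v1 v' b hVw hv' hsec1.dimv
  · intro c
    have hcex : ∀ j, ∃ cj : V, π cj = c j := fun j => hπ (c j)
    choose cV hcV using hcex
    have hf0 : map V.subtype f ≠ 0 := by
      intro h
      have h1 : f = 0 := map_injective V.subtype V.subtype_injective (by rw [h, map_zero])
      exact hns.ne_zero (by rw [h1, map_zero])
    have h2 := hP2 E n a b (map V.subtype f) x1 u1 v1 (fun j => (cV j : E)) hab hf3 hf0 hsec1 huv1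
    have h3 : DimLe2 E (fun i => eE (x1 i)) (fun i => eE (hyp E n (fun j => (cV j : E)) x1 i)) n :=
      (dimLe2_map eE _ _ n).2 h2
    let Hw : Fin (n + 2) → W := fun i => (∑ j, κ (cV j) * Tw j) * Xw i -
      (∑ j, κ (cV j) * Xw j) * Tw i
    have h4 : (fun i => ((Hw i : W) : Cl E n)) =
        fun i => eE (hyp E n (fun j => (cV j : E)) x1 i) := by
      funext i
      change W.subtype ((∑ j, κ (cV j) * Tw j) * Xw i - (∑ j, κ (cV j) * Xw j) * Tw i) = _
      unfold hyp
      have hk : ∀ j, W.subtype (κ (cV j)) = eE (algebraMap E (FT E n) (cV j : E)) := by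
        intro j
        rw [eE.commutes]
        rfl
      simp only [map_sub, map_mul, map_sum, hTw1, hXw, hk]
    have h5 : (fun i => ρ (Hw i)) = fun i => jF (hyp F' n c x' i) := by
      funext i
      change ρ ((∑ j, κ (cV j) * Tw j) * Xw i - (∑ j, κ (cV j) * Xw j) * Tw i) = _
      unfold hyp
      have hk : ∀ j, ρ (κ (cV j)) = jF (algebraMap F' (FT F' n) (c j)) := by
        intro j
        rw [jF.commutes, ← hcV j]
        exact congrFun (congrArg DFunLike.coe hκ2) (cV j)
      simp only [map_sub, map_mul, map_sum, hTw2, hx', hk]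
    have h6 := (hSPP E F' (Cl E n) Ω' V π W ρ (Fin (n + 2)) Xw Hw n hπ hu hρ hκex).2
    have h7 : (fun i => ((Xw i : W) : Cl E n)) = fun i => eE (x1 i) := rfl
    rw [h7, h4, h5, hXr] at h6
    exact (dimLe2_map jF _ _ n).1 (h6 h3)

end Pool.Agent.SCT.H88
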